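import Pool.Agent.helper74.GN.Defs

/-!
# GNU project (MP_d11331_al), module GN5a: the five groups of order `w ^ 3`
-/

namespace Pool.Agent.helper74.GN

namespace P3

theorem pow_val_add {G : Type} [Group G] {n : ℕ} [NeZero n] {x : G} (hx : x ^ n = 1)
    (a b : ZMod n) : x ^ (a + b).val = x ^ a.val * x ^ b.val := by
  rw [ZMod.val_add, ← pow_add, ← pow_eq_pow_mod _ hx]

theorem pow_val_mul {G : Type} [Group G] {n : ℕ} {x : G} (hx : x ^ n = 1)
    (a b : ZMod n) : x ^ (a * b).val = x ^ (a.val * b.val) := by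
  rw [ZMod.val_mul, ← pow_eq_pow_mod _ hx]

theorem pow_val_natCast {G : Type} [Group G] {n : ℕ} {x : G} (hx : x ^ n = 1)
    (k : ℕ) : x ^ (k : ZMod n).val = x ^ k := by
  rw [ZMod.val_natCast, ← pow_eq_pow_mod _ hx]

/-- The commutation relation. -/
theorem comm_pow {G : Type} [Group G] {x y z : G} (h : y * x = x * y * z)
    (hz : ∀ g, g * z = z * g) (i j : ℕ) : y ^ j * x ^ i = x ^ i * y ^ j * z ^ (i * j) := by
  have hzk : ∀ (k : ℕ) (g : G), g * z ^ k = z ^ k * g := fun k g =>
    ((show Commute g z from hz g).pow_right k).eq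
  have h1 : ∀ j : ℕ, y ^ j * x = x * y ^ j * z ^ j := by
    intro j
    induction j with
    | zero => simp
    | succ j ih =>
      calc y ^ (j + 1) * x = y ^ j * (y * x) := by rw [pow_succ]; group
        _ = y ^ j * x * y * z := by rw [h]; group
        _ = x * y ^ j * (z ^ j * y) * z := by rw [ih]; group
        _ = x * y ^ j * (y * z ^ j) * z := by rw [hzk]
        _ = x * y ^ (j + 1) * z ^ (j + 1) := by rw [pow_succ, pow_succ]; group
  induction i with
  | zero => simp
  | succ i ih =>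
    calc y ^ j * x ^ (i + 1) = (y ^ j * x ^ i) * x := by rw [pow_succ]; group
      _ = x ^ i * y ^ j * (z ^ (i * j) * x) := by rw [ih]; group
      _ = x ^ i * y ^ j * (x * z ^ (i * j)) := by rw [hzk]
      _ = x ^ i * (y ^ j * x) * z ^ (i * j) := by group
      _ = x ^ (i + 1) * y ^ j * z ^ ((i + 1) * j) := by
        rw [h1, pow_succ, add_mul, one_mul, add_comm (i * j) j, pow_add]; group

/-! ## The Heisenberg group of exponent `w` -/

/-- The Heisenberg group. -/
@[ext]
structure Hs (w : ℕ) where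
  a : ZMod w
  b : ZMod w
  c : ZMod w

namespace Hs

variable {w : ℕ}

instance : Mul (Hs w) := ⟨fun u v => ⟨u.a + v.a, u.b + v.b, u.c + v.c + u.b * v.a⟩⟩
instance : One (Hs w) := ⟨⟨0, 0, 0⟩⟩
instance : Inv (Hs w) := ⟨fun u => ⟨-u.a, -u.b, -u.c + u.b * u.a⟩⟩

theorem mul_def (u v : Hs w) :
    u * v = ⟨u.a + v.a, u.b + v.b, u.c + v.c + u.b * v.a⟩ := rfl
theorem one_def : (1 : Hs w) = ⟨0, 0, 0⟩ := rfl
theorem inv_def (u : Hs w) : u⁻¹ = ⟨-u.a, -u.b, -u.c + u.b * u.a⟩ := rfl

instance : Group (Hs w) := Group.ofLeftAxioms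
  (by
    intro u v t
    ext <;> simp only [mul_def] <;> ring)
  (by
    intro u
    ext <;> simp [mul_def, one_def])
  (by
    intro u
    ext <;> simp only [mul_def, one_def, inv_def] <;> ring)

/-- The underlying triple. -/
def equiv (w : ℕ) : Hs w ≃ ZMod w × ZMod w × ZMod w where
  toFun u := (u.a, u.b, u.c)
  invFun p := ⟨p.1, p.2.1, p.2.2⟩
  left_inv _ := rfl
  right_inv _ := rfl

theorem card (w : ℕ) : Nat.card (Hs w) = w ^ 3 := by
  rw [Nat.card_congr (equiv w), Nat.card_prod, Nat.card_prod, Nat.card_zmod]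
  ring

theorem pow_def (u : Hs w) (n : ℕ) :
    u ^ n = ⟨n * u.a, n * u.b, n * u.c + (n.choose 2 : ℕ) * (u.b * u.a)⟩ := by
  induction n with
  | zero => simp [one_def]
  | succ n ih =>
    rw [pow_succ, ih, mul_def]
    have h : ((n + 1).choose 2 : ℕ) = n + n.choose 2 := by
      rw [Nat.choose_succ_succ' n 1, Nat.choose_one_right]
    ext
    · push_cast; ring
    · push_cast; ring
    · rw [h]; push_cast; ring

theorem pow_w (hw : w.Prime) (h2 : w ≠ 2) (u : Hs w) : u ^ w = 1 := by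
  have h : w ∣ w.choose 2 := hw.dvd_choose_self (by norm_num)
    (lt_of_le_of_ne hw.two_le (Ne.symm h2))
  have h' : ((w.choose 2 : ℕ) : ZMod w) = 0 := (ZMod.natCast_eq_zero_iff _ _).2 h
  rw [pow_def, h']
  simp [one_def]

end Hs

/-! ## The nonabelian group of exponent `w ^ 2` -/

/-- Multiplication by `w`. -/
def io {w : ℕ} (c : ZMod w) : ZMod (w ^ 2) := (w : ZMod (w ^ 2)) * (c.val : ZMod (w ^ 2))

theorem w_mul_w (w : ℕ) : (w : ZMod (w ^ 2)) * (w : ZMod (w ^ 2)) = 0 := by
  rw [← Nat.cast_mul, ← sq]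
  exact ZMod.natCast_self _

theorem io_natCast {w : ℕ} (k : ℕ) : io (k : ZMod w) = (w : ZMod (w ^ 2)) * k := by
  unfold io
  rw [ZMod.val_natCast]
  conv_rhs => rw [← Nat.mod_add_div k w]
  push_cast
  rw [mul_add, ← mul_assoc, w_mul_w, zero_mul, add_zero]

theorem io_add {w : ℕ} [NeZero w] (c d : ZMod w) : io (c + d) = io c + io d := by
  have h : c + d = ((c.val + d.val : ℕ) : ZMod w) := by
    push_cast
    rw [ZMod.natCast_zmod_val, ZMod.natCast_zmod_val]
  rw [h, io_natCast]
  unfold io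
  push_cast
  ring

theorem io_mul {w : ℕ} (c d : ZMod w) : io c * io d = 0 := by
  unfold io
  have : (w : ZMod (w ^ 2)) * (c.val : ZMod (w ^ 2)) * ((w : ZMod (w ^ 2)) * (d.val : ZMod (w ^ 2)))
      = (w : ZMod (w ^ 2)) * (w : ZMod (w ^ 2)) * ((c.val : ZMod (w ^ 2)) * (d.val : ZMod (w ^ 2))) := by
    ring
  rw [this, w_mul_w, zero_mul]

theorem io_zero {w : ℕ} [NeZero w] : io (0 : ZMod w) = 0 := by
  simp [io]

theorem io_neg {w : ℕ} [NeZero w] (c : ZMod w) : io (-c) = - io c := by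
  have h := io_add c (-c)
  rw [add_neg_cancel, io_zero] at h
  exact (neg_eq_of_add_eq_zero_right h.symm).symm

/-- The nonabelian group of order `w ^ 3` with elements of order `w ^ 2`. -/
@[ext]
structure Ms (w : ℕ) where
  a : ZMod (w ^ 2)
  c : ZMod w

namespace Ms

variable {w : ℕ}

instance : Mul (Ms w) := ⟨fun u v => ⟨u.a + v.a + io u.c * v.a, u.c + v.c⟩⟩
instance : One (Ms w) := ⟨⟨0, 0⟩⟩
instance : Inv (Ms w) := ⟨fun u => ⟨-u.a + io u.c * u.a, -u.c⟩⟩

theorem mul_def (u v : Ms w) : u * v = ⟨u.a + v.a + io u.c * v.a, u.c + v.c⟩ := rfl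
theorem one_def : (1 : Ms w) = ⟨0, 0⟩ := rfl
theorem inv_def (u : Ms w) : u⁻¹ = ⟨-u.a + io u.c * u.a, -u.c⟩ := rfl

instance [NeZero w] : Group (Ms w) := Group.ofLeftAxioms
  (by
    intro u v t
    ext
    · simp only [mul_def, io_add]
      have h := io_mul u.c v.c
      linear_combination (-t.a) * h
    · simp only [mul_def]; ring)
  (by
    intro u
    ext <;> simp [mul_def, one_def, io_zero])
  (by
    intro u
    ext
    · simp only [mul_def, one_def, inv_def, io_neg]
      ring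
    · simp only [mul_def, one_def, inv_def]; ring)

/-- The underlying pair. -/
def equiv (w : ℕ) : Ms w ≃ ZMod (w ^ 2) × ZMod w where
  toFun u := (u.a, u.c)
  invFun p := ⟨p.1, p.2⟩
  left_inv _ := rfl
  right_inv _ := rfl

theorem card (w : ℕ) : Nat.card (Ms w) = w ^ 3 := by
  rw [Nat.card_congr (equiv w), Nat.card_prod, Nat.card_zmod, Nat.card_zmod]
  ring

theorem pow_a [NeZero w] (a : ZMod (w ^ 2)) (n : ℕ) : (⟨a, 0⟩ : Ms w) ^ n = ⟨n * a, 0⟩ := by
  induction n with
  | zero => simp [one_def]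
  | succ n ih =>
    rw [pow_succ, ih, mul_def]
    ext
    · simp only [io_zero]; push_cast; ring
    · simp

end Ms

theorem center_facts {w : ℕ} (hw : w.Prime) (G : Type) [Group G] (hG : Nat.card G = w ^ 3)
    (hc : ∃ x y : G, x * y ≠ y * x) :
    Nat.card (Subgroup.center G) = w ∧ (∀ x : G, x ^ w ∈ Subgroup.center G) ∧
    ∀ x y : G, ∃ z ∈ Subgroup.center G, y * x = x * y * z := by
  have : Fact w.Prime := ⟨hw⟩
  have hfin : Finite G := Nat.finite_of_card_ne_zero (hG ▸ pow_ne_zero _ hw.ne_zero)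
  obtain ⟨k, hk0, hk⟩ := IsPGroup.card_center_eq_prime_pow (p := w) hG (by norm_num)
  have hncyc : ¬ IsCyclic (G ⧸ Subgroup.center G) := by
    intro h
    obtain ⟨x, y, hxy⟩ := hc
    exact hxy ((isMulCommutative_of_isCyclic_quotient_center_self G).is_comm.comm x y)
  have hmul := (Subgroup.center G).card_mul_index
  rw [hG, hk] at hmul
  have hidx : Nat.card (G ⧸ Subgroup.center G) = (Subgroup.center G).index := rfl
  have hk3 : k ≤ 3 := by
    have : w ^ k ∣ w ^ 3 := ⟨_, hmul.symm⟩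
    exact (Nat.pow_dvd_pow_iff_le_right hw.one_lt).1 this
  have hindex : (Subgroup.center G).index = w ^ (3 - k) := by
    have h1 : w ^ k * (Subgroup.center G).index = w ^ k * w ^ (3 - k) := by
      rw [hmul, ← pow_add]; congr 1; omega
    exact Nat.eq_of_mul_eq_mul_left (pow_pos hw.pos _) h1
  have hk1 : k = 1 := by
    by_contra hne
    have hk' : k = 2 ∨ k = 3 := by omega
    rcases hk' with rfl | rfl
    · apply hncyc
      apply isCyclic_of_card_dvd_prime (p := w)
      rw [hidx, hindex]; simp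
    · apply hncyc
      apply isCyclic_of_card_dvd_prime (p := w)
      rw [hidx, hindex]; simp
  subst hk1
  rw [pow_one] at hk
  have hq : Nat.card (G ⧸ Subgroup.center G) = w ^ 2 := by rw [hidx, hindex]
  refine ⟨hk, ?_, ?_⟩
  · intro x
    by_contra hx
    apply hncyc
    have h1 : ((x : G ⧸ Subgroup.center G)) ^ w ≠ 1 := by
      intro h
      apply hx
      rw [← QuotientGroup.mk_pow] at h
      exact (QuotientGroup.eq_one_iff _).1 h
    have h2 : orderOf (x : G ⧸ Subgroup.center G) = w ^ 2 := by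
      have h3 : orderOf (x : G ⧸ Subgroup.center G) ∣ w ^ 2 := hq ▸ orderOf_dvd_natCard _
      obtain ⟨j, hj, hj'⟩ := (Nat.dvd_prime_pow hw).1 h3
      have : j = 2 := by
        by_contra hj2
        apply h1
        rw [← orderOf_dvd_iff_pow_eq_one, hj']
        calc w ^ j ∣ w ^ 1 := pow_dvd_pow _ (by omega)
          _ = w := pow_one w
      rw [hj', this]
    exact isCyclic_of_orderOf_eq_card (x : G ⧸ Subgroup.center G) (by rw [h2, hq])
  · intro x y
    have h1 := (IsPGroup.isMulCommutative_of_card_eq_prime_sq (p := w) hq).is_comm.comm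
      (x : G ⧸ Subgroup.center G) (y : G ⧸ Subgroup.center G)
    rw [← QuotientGroup.mk_mul, ← QuotientGroup.mk_mul, QuotientGroup.eq] at h1
    exact ⟨_, h1, by group⟩

theorem comm_of_pow_val {G : Type} [Group G] {w : ℕ} (hw : w.Prime) {x y : G} (hy : y ^ w = 1)
    {c : ZMod w} (hc : c ≠ 0) (h : Commute (y ^ c.val) x) : Commute y x := by
  have : Fact w.Prime := ⟨hw⟩
  have h1 : y = (y ^ c.val) ^ (c⁻¹).val := by
    rw [← pow_mul, ← pow_val_mul hy, mul_inv_cancel₀ hc, ZMod.val_one'' hw.one_lt.ne', pow_one]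
  rw [h1]
  exact h.pow_left _

theorem mem_of_pow_val {G : Type} [Group G] {w : ℕ} (hw : w.Prime) {y : G} (hy : y ^ w = 1)
    {c : ZMod w} (hc : c ≠ 0) (H : Subgroup G) (h : y ^ c.val ∈ H) : y ∈ H := by
  have : Fact w.Prime := ⟨hw⟩
  have h1 : y = (y ^ c.val) ^ (c⁻¹).val := by
    rw [← pow_mul, ← pow_val_mul hy, mul_inv_cancel₀ hc, ZMod.val_one'' hw.one_lt.ne', pow_one]
  rw [h1]
  exact H.pow_mem h _

theorem mul_pow_comm {G : Type} [Group G] {x y z : G} (h : y * x = x * y * z)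
    (hz : ∀ g, g * z = z * g) (n : ℕ) : (x * y) ^ n = x ^ n * y ^ n * z ^ (n.choose 2) := by
  have hzk : ∀ (k : ℕ) (g : G), g * z ^ k = z ^ k * g := fun k g =>
    ((show Commute g z from hz g).pow_right k).eq
  induction n with
  | zero => simp
  | succ n ih =>
    have h1 := comm_pow h hz 1 n
    rw [pow_one, one_mul] at h1
    have h2 : ((n + 1).choose 2 : ℕ) = n + n.choose 2 := by
      rw [Nat.choose_succ_succ' n 1, Nat.choose_one_right]
    calc (x * y) ^ (n + 1) = x ^ n * y ^ n * (z ^ (n.choose 2) * (x * y)) := by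
          rw [pow_succ, ih]; group
      _ = x ^ n * y ^ n * ((x * y) * z ^ (n.choose 2)) := by rw [← hzk (n.choose 2) (x * y)]
      _ = x ^ n * (y ^ n * x) * y * z ^ (n.choose 2) := by group
      _ = x ^ n * x * y ^ n * (z ^ n * y) * z ^ (n.choose 2) := by rw [h1]; group
      _ = x ^ n * x * y ^ n * (y * z ^ n) * z ^ (n.choose 2) := by rw [← hzk n y]
      _ = x ^ (n + 1) * y ^ (n + 1) * z ^ ((n + 1).choose 2) := by
          rw [h2, pow_add z, pow_succ, pow_succ]; group

theorem choose_pow {G : Type} [Group G] {w : ℕ} (hw : w.Prime) (h2 : w ≠ 2) {z : G}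
    (hz : z ^ w = 1) : z ^ (w.choose 2) = 1 := by
  have h : w ∣ w.choose 2 := hw.dvd_choose_self (by norm_num)
    (lt_of_le_of_ne hw.two_le (Ne.symm h2))
  obtain ⟨k, hk⟩ := h
  rw [hk, pow_mul, hz, one_pow]

/-- A nonabelian group of order `w ^ 3` and exponent `w` is the Heisenberg group. -/
theorem equiv_Hs {w : ℕ} (hw : w.Prime) (G : Type) [Group G]
    (hG : Nat.card G = w ^ 3) (hc : ∃ x y : G, x * y ≠ y * x) (he : ∀ x : G, x ^ w = 1) :
    Nonempty (G ≃* Hs w) := by
  have : NeZero w := ⟨hw.ne_zero⟩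
  have hfin : Finite G := Nat.finite_of_card_ne_zero (hG ▸ pow_ne_zero _ hw.ne_zero)
  obtain ⟨-, -, hcomm⟩ := center_facts hw G hG hc
  obtain ⟨x, y, hxy⟩ := hc
  obtain ⟨z, hz, hyx⟩ := hcomm x y
  have hz' : ∀ g, g * z = z * g := fun g => Subgroup.mem_center_iff.1 hz g
  have hzk : ∀ (k : ℕ) (g : G), g * z ^ k = z ^ k * g := fun k g =>
    ((show Commute g z from hz' g).pow_right k).eq
  have hz1 : z ≠ 1 := by
    rintro rfl
    apply hxy
    rw [hyx, mul_one]
  let F : Hs w →* G :=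
    { toFun := fun u => x ^ u.a.val * y ^ u.b.val * z ^ u.c.val
      map_one' := by simp [Hs.one_def]
      map_mul' := by
        intro u v
        rw [Hs.mul_def]
        simp only
        rw [pow_val_add (he x), pow_val_add (he y), pow_val_add (he z), pow_val_add (he z),
          pow_val_mul (he z)]
        have h1 := comm_pow hyx hz' v.a.val u.b.val
        symm
        calc x ^ u.a.val * y ^ u.b.val * z ^ u.c.val * (x ^ v.a.val * y ^ v.b.val * z ^ v.c.val)
            = x ^ u.a.val * y ^ u.b.val * (z ^ u.c.val * (x ^ v.a.val * y ^ v.b.val))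
                * z ^ v.c.val := by group
          _ = x ^ u.a.val * y ^ u.b.val * ((x ^ v.a.val * y ^ v.b.val) * z ^ u.c.val)
                * z ^ v.c.val := by rw [← hzk u.c.val (x ^ v.a.val * y ^ v.b.val)]
          _ = x ^ u.a.val * (y ^ u.b.val * x ^ v.a.val) * y ^ v.b.val * z ^ u.c.val
                * z ^ v.c.val := by group
          _ = x ^ u.a.val * x ^ v.a.val * y ^ u.b.val * (z ^ (v.a.val * u.b.val) * y ^ v.b.val)
                * z ^ u.c.val * z ^ v.c.val := by rw [h1]; group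
          _ = x ^ u.a.val * x ^ v.a.val * y ^ u.b.val * (y ^ v.b.val * z ^ (v.a.val * u.b.val))
                * z ^ u.c.val * z ^ v.c.val := by rw [← hzk _ (y ^ v.b.val)]
          _ = x ^ u.a.val * x ^ v.a.val * (y ^ u.b.val * y ^ v.b.val) *
                (z ^ (v.a.val * u.b.val) * (z ^ u.c.val * z ^ v.c.val)) := by group
          _ = x ^ u.a.val * x ^ v.a.val * (y ^ u.b.val * y ^ v.b.val) *
                ((z ^ u.c.val * z ^ v.c.val) * z ^ (v.a.val * u.b.val)) := by
                  rw [hzk (v.a.val * u.b.val) (z ^ u.c.val * z ^ v.c.val)]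
          _ = _ := by rw [mul_comm v.a.val] }
  have hinj : Function.Injective F := by
    rw [injective_iff_map_eq_one]
    intro u hu
    have hu' : x ^ u.a.val * y ^ u.b.val * z ^ u.c.val = 1 := hu
    have hcz : ∀ g : G, Commute (z ^ u.c.val) g := fun g => (hzk _ g).symm
    have ha : u.a = 0 := by
      by_contra ha
      apply hxy
      have h1 : x ^ u.a.val = (y ^ u.b.val * z ^ u.c.val)⁻¹ := by
        rw [mul_assoc] at hu'
        exact eq_inv_of_mul_eq_one_left hu'
      have h2 : Commute (x ^ u.a.val) y := by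
        rw [h1]
        exact (((Commute.refl y).pow_left _).mul_left (hcz y)).inv_left
      exact (comm_of_pow_val hw (he x) ha h2).eq
    rw [ha, ZMod.val_zero, pow_zero, one_mul] at hu'
    have hb : u.b = 0 := by
      by_contra hb
      apply hxy
      have h1 : y ^ u.b.val = (z ^ u.c.val)⁻¹ := eq_inv_of_mul_eq_one_left hu'
      have h2 : Commute (y ^ u.b.val) x := by
        rw [h1]
        exact (hcz x).inv_left
      exact (comm_of_pow_val hw (he y) hb h2).eq.symm
    rw [hb, ZMod.val_zero, pow_zero, one_mul] at hu'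
    have hc : u.c = 0 := by
      by_contra hc
      apply hz1
      have := mem_of_pow_val hw (he z) hc ⊥ (by rw [hu']; exact Subgroup.one_mem _)
      exact Subgroup.mem_bot.1 this
    ext
    · exact ha
    · exact hb
    · exact hc
  have hfin' : Finite (Hs w) := Finite.of_equiv _ (Hs.equiv w).symm
  have hbij : Function.Bijective F :=
    (Nat.bijective_iff_injective_and_card F).2 ⟨hinj, by rw [Hs.card, hG]⟩
  exact ⟨(MulEquiv.ofBijective F hbij).symm⟩

/-- A nonabelian group of order `w ^ 3` with an element of order `w ^ 2`. -/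
theorem equiv_Ms {w : ℕ} (hw : w.Prime) (h2 : w ≠ 2) (G : Type) [Group G]
    (hG : Nat.card G = w ^ 3) (hc : ∃ x y : G, x * y ≠ y * x) (he : ∃ x : G, x ^ w ≠ 1) :
    Nonempty (G ≃* Ms w) := by
  have : NeZero w := ⟨hw.ne_zero⟩
  have hfact : Fact w.Prime := ⟨hw⟩
  have hfin : Finite G := Nat.finite_of_card_ne_zero (hG ▸ pow_ne_zero _ hw.ne_zero)
  obtain ⟨hZ, hpw, hcomm⟩ := center_facts hw G hG hc
  have hZw : ∀ z ∈ Subgroup.center G, z ^ w = 1 := by
    intro z hz
    have h1 : (⟨z, hz⟩ : Subgroup.center G) ^ w = 1 := by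
      rw [← hZ]; exact pow_card_eq_one'
    have := congrArg Subtype.val h1
    simpa using this
  obtain ⟨x, hx⟩ := he
  -- generation of the centre
  have hgen : ∀ z ∈ Subgroup.center G, z ≠ 1 → ∀ z' ∈ Subgroup.center G, ∃ k : ℕ, z ^ k = z' := by
    intro z hz hz1 z' hz'
    have h1 : (⟨z, hz⟩ : Subgroup.center G) ≠ 1 := by
      intro h
      exact hz1 (congrArg Subtype.val h)
    obtain ⟨k, hk⟩ := mem_powers_of_prime_card (p := w) hZ (g' := (⟨z', hz'⟩ : Subgroup.center G)) h1
    refine ⟨k, ?_⟩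
    have := congrArg Subtype.val hk
    simpa using this
  have hxc : x ∉ Subgroup.center G := fun h => hx (hZw x h)
  obtain ⟨g, hg⟩ : ∃ g, g * x ≠ x * g := by
    by_contra hcon
    push Not at hcon
    exact hxc (Subgroup.mem_center_iff.2 hcon)
  obtain ⟨k, hk⟩ := hgen _ (hpw x) hx _ ((Subgroup.center G).inv_mem (hpw g))
  -- `y₀ = x ^ k * g` has `w`-th power `1`
  obtain ⟨z0, hz0, hz0'⟩ := hcomm (x ^ k) g
  have hy0 : (x ^ k * g) ^ w = 1 := by
    rw [mul_pow_comm hz0' (fun a => Subgroup.mem_center_iff.1 hz0 a), choose_pow hw h2 (hZw _ hz0),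
      mul_one, ← pow_mul, mul_comm k w, pow_mul, hk, inv_mul_cancel]
  obtain ⟨z1, hz1, hz1'⟩ := hcomm x (x ^ k * g)
  have hz1c : ∀ a, a * z1 = z1 * a := fun a => Subgroup.mem_center_iff.1 hz1 a
  have hz1n : z1 ≠ 1 := by
    rintro rfl
    apply hg
    rw [mul_one] at hz1'
    have h1 : x ^ k * (g * x) = x ^ k * (x * g) := by
      rw [← mul_assoc, hz1', ← mul_assoc, ← mul_assoc, ← pow_succ, ← pow_succ']
    exact mul_left_cancel h1
  obtain ⟨t, ht⟩ := hgen z1 hz1 hz1n _ (hpw x)
  -- the element `y`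
  have hy : ((x ^ k * g) ^ t) ^ w = 1 := by rw [← pow_mul, mul_comm, pow_mul, hy0, one_pow]
  have hyx : (x ^ k * g) ^ t * x = x * (x ^ k * g) ^ t * x ^ w := by
    have h1 := comm_pow hz1' hz1c 1 t
    rw [pow_one, one_mul, ht] at h1
    exact h1
  obtain ⟨y, hydef⟩ : ∃ y, y = (x ^ k * g) ^ t := ⟨_, rfl⟩
  rw [← hydef] at hy hyx
  have hz' : ∀ a, a * x ^ w = x ^ w * a := fun a => Subgroup.mem_center_iff.1 (hpw x) a
  have hzk : ∀ (k : ℕ) (a : G), a * (x ^ w) ^ k = (x ^ w) ^ k * a := fun k a =>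
    ((show Commute a (x ^ w) from hz' a).pow_right k).eq
  have hnc : ¬ Commute y x := by
    intro h
    have h1 : y * x = x * y := h.eq
    rw [hyx] at h1
    apply hx
    have h2 : x * y * x ^ w = x * y * 1 := by rw [h1, mul_one]
    exact mul_left_cancel h2
  have hx2 : x ^ (w ^ 2) = 1 := by
    rw [sq, pow_mul]
    exact hZw _ (hpw x)
  have hord : orderOf x = w ^ 2 := by
    apply orderOf_eq_prime_pow (n := 1)
    · rwa [pow_one]
    · exact hx2
  let F : Ms w →* G :=
    { toFun := fun u => x ^ u.a.val * y ^ u.c.val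
      map_one' := by simp [Ms.one_def]
      map_mul' := by
        intro u v
        rw [Ms.mul_def]
        simp only
        rw [pow_val_add hx2, pow_val_add hx2, pow_val_add hy]
        have h3 : io u.c * v.a = ((w * (v.a.val * u.c.val) : ℕ) : ZMod (w ^ 2)) := by
          unfold io
          push_cast
          rw [ZMod.natCast_zmod_val v.a]
          ring
        rw [h3, pow_val_natCast hx2, pow_mul x w]
        have h1 := comm_pow hyx hz' v.a.val u.c.val
        symm
        calc x ^ u.a.val * y ^ u.c.val * (x ^ v.a.val * y ^ v.c.val)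
            = x ^ u.a.val * (y ^ u.c.val * x ^ v.a.val) * y ^ v.c.val := by group
          _ = x ^ u.a.val * x ^ v.a.val * (y ^ u.c.val * (x ^ w) ^ (v.a.val * u.c.val))
                * y ^ v.c.val := by rw [h1]; simp only [mul_assoc]
          _ = x ^ u.a.val * x ^ v.a.val * ((x ^ w) ^ (v.a.val * u.c.val) * y ^ u.c.val)
                * y ^ v.c.val := by rw [hzk]
          _ = _ := by simp only [mul_assoc] }
  have hinj : Function.Injective F := by
    rw [injective_iff_map_eq_one]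
    intro u hu
    have hu' : x ^ u.a.val * y ^ u.c.val = 1 := hu
    have hcc : u.c = 0 := by
      by_contra hcc
      apply hnc
      have h1 : y ^ u.c.val = (x ^ u.a.val)⁻¹ := eq_inv_of_mul_eq_one_right hu'
      have h3 : Commute (y ^ u.c.val) x := by
        rw [h1]
        exact ((Commute.refl x).pow_left _).inv_left
      exact comm_of_pow_val hw hy hcc h3
    rw [hcc, ZMod.val_zero, pow_zero, mul_one] at hu'
    have ha : u.a = 0 := by
      have h1 : orderOf x ∣ u.a.val := orderOf_dvd_of_pow_eq_one hu'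
      rw [hord] at h1
      have h4 : u.a.val < w ^ 2 := ZMod.val_lt _
      have h3 : u.a.val = 0 := Nat.eq_zero_of_dvd_of_lt h1 h4
      exact (ZMod.val_eq_zero _).1 h3
    ext
    · rw [ha]; rfl
    · rw [hcc]; rfl
  have hfin' : Finite (Ms w) := Finite.of_equiv _ (Ms.equiv w).symm
  have hbij : Function.Bijective F :=
    (Nat.bijective_iff_injective_and_card F).2 ⟨hinj, by rw [Ms.card, hG]⟩
  exact ⟨(MulEquiv.ofBijective F hbij).symm⟩

/-- The commutative groups. -/
theorem equiv_cyclic {w : ℕ} (hw : w.Prime) (G : Type) [Group G]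
    (hG : Nat.card G = w ^ 3) (he : ∃ x : G, x ^ (w ^ 2) ≠ 1) :
    Nonempty (G ≃* Multiplicative (ZMod (w ^ 3))) := by
  have hfact : Fact w.Prime := ⟨hw⟩
  have hfin : Finite G := Nat.finite_of_card_ne_zero (hG ▸ pow_ne_zero _ hw.ne_zero)
  obtain ⟨x, hx⟩ := he
  have h1 : orderOf x = w ^ 3 := by
    apply orderOf_eq_prime_pow (n := 2) hx
    show x ^ w ^ 3 = 1
    rw [← hG]
    exact pow_card_eq_one'
  have h2 : IsCyclic G := isCyclic_of_orderOf_eq_card x (by rw [h1, hG])
  rw [← hG]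
  exact ⟨(zmodCyclicMulEquiv h2).symm⟩

theorem equiv_mixed {w : ℕ} (hw : w.Prime) (G : Type) [Group G]
    (hG : Nat.card G = w ^ 3) (hc : ∀ x y : G, x * y = y * x) (he : ∀ x : G, x ^ (w ^ 2) = 1)
    (hx : ∃ x : G, x ^ w ≠ 1) :
    Nonempty (G ≃* Multiplicative (ZMod (w ^ 2) × ZMod w)) := by
  have : NeZero w := ⟨hw.ne_zero⟩
  have hfact : Fact w.Prime := ⟨hw⟩
  have hfin : Finite G := Nat.finite_of_card_ne_zero (hG ▸ pow_ne_zero _ hw.ne_zero)
  obtain ⟨x, hx⟩ := hx
  have hord : orderOf x = w ^ 2 := by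
    apply orderOf_eq_prime_pow (n := 1)
    · rwa [pow_one]
    · exact he x
  have hN : (Subgroup.zpowers x).Normal := ⟨fun n hn g => by rwa [hc g n, mul_inv_cancel_right]⟩
  have hcard : Nat.card (Subgroup.zpowers x) = w ^ 2 := by rw [Nat.card_zpowers, hord]
  have hidx : (Subgroup.zpowers x).index = w := by
    have h1 := (Subgroup.zpowers x).card_mul_index
    rw [hcard, hG] at h1
    have h3 : w ^ 2 * (Subgroup.zpowers x).index = w ^ 2 * w := by rw [h1]; ring
    exact Nat.eq_of_mul_eq_mul_left (pow_pos hw.pos 2) h3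
  obtain ⟨g, hg⟩ : ∃ g, g ∉ Subgroup.zpowers x := by
    by_contra hcon
    push Not at hcon
    have h1 : Subgroup.zpowers x = ⊤ := (Subgroup.eq_top_iff' _).2 hcon
    rw [h1, Subgroup.index_top] at hidx
    exact hw.one_lt.ne hidx
  have hgw : g ^ w ∈ Subgroup.zpowers x := by
    have h1 := Subgroup.pow_index_mem (Subgroup.zpowers x) g
    rwa [hidx] at h1
  obtain ⟨k, hk⟩ := (mem_powers_iff_mem_zpowers.2 hgw)
  have hk' : x ^ k = g ^ w := hk
  have hkw : w ∣ k := by
    have h1 : x ^ (k * w) = 1 := by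
      rw [pow_mul, hk', ← pow_mul, ← sq, he]
    have h3 : w ^ 2 ∣ k * w := hord ▸ orderOf_dvd_of_pow_eq_one h1
    rw [sq] at h3
    exact Nat.dvd_of_mul_dvd_mul_right hw.pos h3
  obtain ⟨m, rfl⟩ := hkw
  obtain ⟨y, hydef⟩ : ∃ y, y = g * (x ^ m)⁻¹ := ⟨_, rfl⟩
  have hy : y ^ w = 1 := by
    have h1 : Commute g (x ^ m)⁻¹ := hc _ _
    rw [hydef, h1.mul_pow, ← hk', inv_pow, ← pow_mul, mul_comm m w, mul_inv_cancel]
  have hyx : y ∉ Subgroup.zpowers x := by
    intro h
    apply hg
    have h1 : g = y * x ^ m := by rw [hydef]; group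
    rw [h1]
    exact Subgroup.mul_mem _ h (Subgroup.pow_mem _ (Subgroup.mem_zpowers x) _)
  let F : Multiplicative (ZMod (w ^ 2) × ZMod w) →* G :=
    { toFun := fun u => x ^ (Multiplicative.toAdd u).1.val * y ^ (Multiplicative.toAdd u).2.val
      map_one' := by simp
      map_mul' := by
        intro u v
        simp only [toAdd_mul, Prod.fst_add, Prod.snd_add]
        rw [pow_val_add (he x), pow_val_add hy]
        have h1 : y ^ (Multiplicative.toAdd u).2.val * x ^ (Multiplicative.toAdd v).1.val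
          = x ^ (Multiplicative.toAdd v).1.val * y ^ (Multiplicative.toAdd u).2.val := hc _ _
        calc _ = x ^ (Multiplicative.toAdd u).1.val * (x ^ (Multiplicative.toAdd v).1.val
              * y ^ (Multiplicative.toAdd u).2.val) * y ^ (Multiplicative.toAdd v).2.val := by
                simp only [mul_assoc]
          _ = _ := by rw [← h1]; simp only [mul_assoc] }
  have hinj : Function.Injective F := by
    rw [injective_iff_map_eq_one]
    intro u hu
    have hu' : x ^ (Multiplicative.toAdd u).1.val * y ^ (Multiplicative.toAdd u).2.val = 1 := hu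
    have hcc : (Multiplicative.toAdd u).2 = 0 := by
      by_contra hcc
      apply hyx
      apply mem_of_pow_val hw hy hcc
      have h1 : y ^ (Multiplicative.toAdd u).2.val = (x ^ (Multiplicative.toAdd u).1.val)⁻¹ :=
        eq_inv_of_mul_eq_one_right hu'
      rw [h1]
      exact Subgroup.inv_mem _ (Subgroup.pow_mem _ (Subgroup.mem_zpowers x) _)
    rw [hcc, ZMod.val_zero, pow_zero, mul_one] at hu'
    have ha : (Multiplicative.toAdd u).1 = 0 := by
      have h1 : orderOf x ∣ (Multiplicative.toAdd u).1.val := orderOf_dvd_of_pow_eq_one hu'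
      rw [hord] at h1
      have h4 : (Multiplicative.toAdd u).1.val < w ^ 2 := ZMod.val_lt _
      exact (ZMod.val_eq_zero _).1 (Nat.eq_zero_of_dvd_of_lt h1 h4)
    apply Multiplicative.toAdd.injective
    exact Prod.ext ha hcc
  have hbij : Function.Bijective F :=
    (Nat.bijective_iff_injective_and_card F).2 ⟨hinj, by
      rw [hG, Nat.card_congr Multiplicative.toAdd, Nat.card_prod, Nat.card_zmod, Nat.card_zmod]
      ring⟩
  exact ⟨(MulEquiv.ofBijective F hbij).symm⟩

theorem equiv_elem0 {w : ℕ} [Fact w.Prime] (G : Type) [AddCommGroup G] [Module (ZMod w) G]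
    (hG : Nat.card G = w ^ 3) :
    Nonempty (G ≃+ ZMod w × ZMod w × ZMod w) := by
  have hw : w.Prime := Fact.out
  have hfin : Finite G := Nat.finite_of_card_ne_zero (hG ▸ pow_ne_zero _ hw.ne_zero)
  have h1 : Module.finrank (ZMod w) G = 3 := by
    have h2 := FiniteField.pow_finrank_eq_natCard w G
    rw [hG] at h2
    exact Nat.pow_right_injective hw.two_le h2
  have h3 : Module.finrank (ZMod w) (ZMod w × ZMod w × ZMod w) = 3 := by
    rw [Module.finrank_prod, Module.finrank_prod, Module.finrank_self]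
  let e := LinearEquiv.ofFinrankEq G (ZMod w × ZMod w × ZMod w) (h1.trans h3.symm)
  exact ⟨e.toAddEquiv⟩

theorem equiv_elem' {w : ℕ} (hw : w.Prime) (G : Type) [AddCommGroup G]
    (hG : Nat.card G = w ^ 3) (he : ∀ x : G, w • x = 0) :
    Nonempty (G ≃+ ZMod w × ZMod w × ZMod w) := by
  have hfact : Fact w.Prime := ⟨hw⟩
  let hmod : Module (ZMod w) G := AddCommGroup.zmodModule he
  exact equiv_elem0 (w := w) G hG

theorem equiv_elem {w : ℕ} (hw : w.Prime) (G : Type) [Group G]
    (hG : Nat.card G = w ^ 3) (hc : ∀ x y : G, x * y = y * x) (he : ∀ x : G, x ^ w = 1) :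
    Nonempty (G ≃* Multiplicative (ZMod w × ZMod w × ZMod w)) := by
  let hcg : CommGroup G := { mul_comm := hc }
  obtain ⟨e⟩ := equiv_elem' hw (Additive G) hG (fun x => he (Additive.toMul x))
  exact ⟨AddEquiv.toMultiplicativeRight e⟩

/-- The five groups. -/
def G5 (w : ℕ) : Fin 5 → Type
  | 0 => Multiplicative (ZMod (w ^ 3))
  | 1 => Multiplicative (ZMod (w ^ 2) × ZMod w)
  | 2 => Multiplicative (ZMod w × ZMod w × ZMod w)
  | 3 => Hs w
  | 4 => Ms w

/-- Their group structures. -/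
instance G5group (w : ℕ) [NeZero w] : ∀ i, Group (G5 w i)
  | 0 => inferInstanceAs (Group (Multiplicative (ZMod (w ^ 3))))
  | 1 => inferInstanceAs (Group (Multiplicative (ZMod (w ^ 2) × ZMod w)))
  | 2 => inferInstanceAs (Group (Multiplicative (ZMod w × ZMod w × ZMod w)))
  | 3 => inferInstanceAs (Group (Hs w))
  | 4 => inferInstanceAs (Group (Ms w))

theorem G5card (w : ℕ) : ∀ i, Nat.card (G5 w i) = w ^ 3
  | 0 => by
    show Nat.card (ZMod (w ^ 3)) = w ^ 3
    rw [Nat.card_zmod]
  | 1 => by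
    show Nat.card (ZMod (w ^ 2) × ZMod w) = w ^ 3
    rw [Nat.card_prod, Nat.card_zmod, Nat.card_zmod]; ring
  | 2 => by
    show Nat.card (ZMod w × ZMod w × ZMod w) = w ^ 3
    rw [Nat.card_prod, Nat.card_prod, Nat.card_zmod]; ring
  | 3 => Hs.card w
  | 4 => Ms.card w

/-- Commutativity. -/
theorem G5comm (w : ℕ) [NeZero w] (h1 : 1 < w) : ∀ i, (∀ x y : G5 w i, x * y = y * x) ↔ i.val ≤ 2
  | 0 => ⟨fun _ => by norm_num, fun _ x y =>
      mul_comm (G := Multiplicative (ZMod (w ^ 3))) x y⟩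
  | 1 => ⟨fun _ => by norm_num, fun _ x y =>
      mul_comm (G := Multiplicative (ZMod (w ^ 2) × ZMod w)) x y⟩
  | 2 => ⟨fun _ => by norm_num, fun _ x y =>
      mul_comm (G := Multiplicative (ZMod w × ZMod w × ZMod w)) x y⟩
  | 3 => by
    have hf : Fact (1 < w) := ⟨h1⟩
    refine ⟨fun h => ?_, fun h => absurd h (by decide)⟩
    have h2 : (⟨1, 0, 0⟩ : Hs w) * ⟨0, 1, 0⟩ = ⟨0, 1, 0⟩ * ⟨1, 0, 0⟩ := h _ _
    have h3 := congrArg Hs.c h2
    simp [Hs.mul_def] at h3
  | 4 => by
    have hf : Fact (1 < w) := ⟨h1⟩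
    refine ⟨fun h => ?_, fun h => absurd h (by decide)⟩
    have h2 : (⟨1, 0⟩ : Ms w) * ⟨0, 1⟩ = ⟨0, 1⟩ * ⟨1, 0⟩ := h _ _
    have h3 := congrArg Ms.a h2
    have h4 : (w : ZMod (w ^ 2)) = 0 := by
      have h5 : io (1 : ZMod w) = (w : ZMod (w ^ 2)) := by
        have := io_natCast (w := w) 1
        simpa using this
      simp only [Ms.mul_def, h5] at h3
      simpa using h3
    rw [ZMod.natCast_eq_zero_iff] at h4
    have := Nat.le_of_dvd (by omega) h4
    nlinarith

/-- Exponent `w`. -/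
theorem G5exp (w : ℕ) [NeZero w] (hw : w.Prime) (hw2 : w ≠ 2) :
    ∀ i, (∀ x : G5 w i, x ^ w = 1) ↔ (i.val = 2 ∨ i.val = 3)
  | 0 => by
    refine ⟨fun h => ?_, fun h => absurd h (by decide)⟩
    have h1 : (Multiplicative.ofAdd (1 : ZMod (w ^ 3))) ^ w = 1 := h _
    have h2 : w • (1 : ZMod (w ^ 3)) = 0 := h1
    rw [nsmul_eq_mul, mul_one, ZMod.natCast_eq_zero_iff] at h2
    have := (Nat.pow_dvd_pow_iff_le_right hw.one_lt (k := 3) (l := 1)).1 (by simpa using h2)
    omega
  | 1 => by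
    refine ⟨fun h => ?_, fun h => absurd h (by decide)⟩
    have h1 : (Multiplicative.ofAdd ((1, 0) : ZMod (w ^ 2) × ZMod w)) ^ w = 1 := h _
    have h2 : w • ((1, 0) : ZMod (w ^ 2) × ZMod w) = 0 := h1
    have h3 := congrArg Prod.fst h2
    simp only [Prod.smul_fst, Prod.fst_zero] at h3
    rw [nsmul_eq_mul, mul_one, ZMod.natCast_eq_zero_iff] at h3
    have := (Nat.pow_dvd_pow_iff_le_right hw.one_lt (k := 2) (l := 1)).1 (by simpa using h3)
    omega
  | 2 => by
    refine ⟨fun _ => by decide, fun _ x => ?_⟩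
    have h2 : w • (Multiplicative.toAdd (α := ZMod w × ZMod w × ZMod w) x) = 0 := by
      ext <;> simp
    exact h2
  | 3 => ⟨fun _ => by decide, fun _ x => Hs.pow_w hw hw2 x⟩
  | 4 => by
    refine ⟨fun h => ?_, fun h => absurd h (by decide)⟩
    have h1 : (⟨1, 0⟩ : Ms w) ^ w = 1 := h _
    rw [Ms.pow_a] at h1
    have h3 := congrArg Ms.a h1
    simp only [mul_one, Ms.one_def] at h3
    rw [ZMod.natCast_eq_zero_iff] at h3
    have := (Nat.pow_dvd_pow_iff_le_right hw.one_lt (k := 2) (l := 1)).1 (by simpa using h3)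
    omega

theorem G5exp2_0 (w : ℕ) [NeZero w] (hw : w.Prime) : ¬ ∀ x : G5 w 0, x ^ (w ^ 2) = 1 := by
  intro h
  have h1 : (Multiplicative.ofAdd (1 : ZMod (w ^ 3))) ^ (w ^ 2) = 1 := h _
  have h2 : (w ^ 2) • (1 : ZMod (w ^ 3)) = 0 := h1
  rw [nsmul_eq_mul, mul_one, ZMod.natCast_eq_zero_iff] at h2
  have := (Nat.pow_dvd_pow_iff_le_right hw.one_lt (k := 3) (l := 2)).1 h2
  omega

theorem G5exp2_1 (w : ℕ) [NeZero w] : ∀ x : G5 w 1, x ^ (w ^ 2) = 1 := by
  intro x
  have h2 : (w ^ 2) • (Multiplicative.toAdd (α := ZMod (w ^ 2) × ZMod w) x) = 0 := by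
    refine Prod.ext ?_ ?_
    · rw [Prod.smul_fst, Prod.fst_zero, nsmul_eq_mul, ZMod.natCast_self, zero_mul]
    · rw [Prod.smul_snd, Prod.snd_zero, nsmul_eq_mul, Nat.cast_pow, ZMod.natCast_self]
      simp
  exact h2

end P3

open P3 in
/-- GN5a: there are exactly five groups of order `w ^ 3`. -/
theorem p3 {w : ℕ} (hw : w.Prime) (h2 : w ≠ 2) : Classified (w ^ 3) (Fin 5) := by
  have : NeZero w := ⟨hw.ne_zero⟩
  refine ⟨G5 w, G5group w, G5card w, ?_, ?_⟩
  · rintro i j ⟨e⟩
    have hA : (∀ x y : G5 w i, x * y = y * x) ↔ (∀ x y : G5 w j, x * y = y * x) := by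
      constructor
      · intro h x y
        apply e.symm.injective
        rw [map_mul, map_mul, h]
      · intro h x y
        apply e.injective
        rw [map_mul, map_mul, h]
    have hB : ∀ n : ℕ, (∀ x : G5 w i, x ^ n = 1) ↔ (∀ x : G5 w j, x ^ n = 1) := by
      intro n
      constructor
      · intro h x
        apply e.symm.injective
        rw [map_pow, h, map_one]
      · intro h x
        apply e.injective
        rw [map_pow, h, map_one]
    rw [G5comm w hw.one_lt i, G5comm w hw.one_lt j] at hA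
    have hB1 := hB w
    rw [G5exp w hw h2 i, G5exp w hw h2 j] at hB1
    have hB2 := hB (w ^ 2)
    have h01 : ¬ (i = 0 ∧ j = 1) := by
      rintro ⟨rfl, rfl⟩
      exact G5exp2_0 w hw (hB2.2 (G5exp2_1 w))
    have h10 : ¬ (i = 1 ∧ j = 0) := by
      rintro ⟨rfl, rfl⟩
      exact G5exp2_0 w hw (hB2.1 (G5exp2_1 w))
    have hi := i.isLt
    have hj := j.isLt
    have h01' : ¬ (i.val = 0 ∧ j.val = 1) := fun h => h01 ⟨Fin.ext h.1, Fin.ext h.2⟩
    have h10' : ¬ (i.val = 1 ∧ j.val = 0) := fun h => h10 ⟨Fin.ext h.1, Fin.ext h.2⟩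
    apply Fin.ext
    omega
  · intro H _ hH
    by_cases hc : ∀ x y : H, x * y = y * x
    · by_cases he : ∀ x : H, x ^ w = 1
      · exact ⟨2, equiv_elem hw H hH hc he⟩
      · push Not at he
        by_cases he2 : ∀ x : H, x ^ (w ^ 2) = 1
        · exact ⟨1, equiv_mixed hw H hH hc he2 he⟩
        · push Not at he2
          exact ⟨0, equiv_cyclic hw H hH he2⟩
    · push Not at hc
      by_cases he : ∀ x : H, x ^ w = 1
      · exact ⟨3, equiv_Hs hw H hH hc he⟩
      · push Not at he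
        exact ⟨4, equiv_Ms hw h2 H hH hc he⟩

end Pool.Agent.helper74.GN
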